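import Mathlib
import Pool.Agent.X184.SS.Asm2
import Pool.Agent.X224.SS.Uni
import Pool.Agent.X153.SS.HER
import Pool.Agent.X86.SS.SPR
import Pool.Agent.X207.SSDEC
import Pool.Agent.X4.SS.BD
import Pool.Agent.X10.SSB.Step
import Pool.Agent.X267.SS.KH1
import Pool.Agent.X122.KH
import Pool.Agent.X181.SS.EX

/-!
# A strictly singular operator on the Schreier space of order `n ≥ 2` far from those through `c₀`

For every `n ≥ 2` there is a strictly singular operator `T` on the Schreier space `X[S_n]` with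
`‖T - A B‖ ≥ 1` for all operators `B : X[S_n] → c₀` and `A : c₀ → X[S_n]`. The operator sends the unit
vector `e_{m_k}` to the average `y_k` over the maximal `S_1`-set with least element `m_k`, for a quickly
increasing sequence `m_k`, and all other unit vectors to `0`.

Method. (1) *Boundedness:* `‖T x‖_n ≤ 3 ‖x‖_{n-1}`, since a member of `S_n` is a union of `S_1`-sets whose
least elements form a member of `S_{n-1}`. (2) *Strict singularity:* if `T` were bounded below on a
subspace `Z` of infinite dimension, the norms of order `n` and `n - 1` would be equivalent on `Z`; sums of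
almost disjoint vectors then give successively vectors in `Z` with norm `1` of order `n` and small norms
of order `0, 1, …, n - 1`, a contradiction. (3) *Distance:* `T` maps `e_{m_k}`, `p ≤ k < 2 p`, isometrically as
the unit vectors of `ℓ_1^p` onto a complemented copy of `ℓ_1^p`, and by Khintchine's inequality the
trace of an operator on `ℓ_1^p` that factors through `c₀` is at most `√(3 p)` times the norms.
-/

set_option autoImplicit false

namespace Pool.Agent.Results.MP_3cdc4e_an.NotApproximable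

open Pool.Agent.X184.SS

/-- `X`, with `ι : c₀₀ → X`, is the Schreier space of order `n`: the completion of the space `c₀₀` of
finitely supported sequences for the norm `x ↦ sup_{F ∈ S_n} ∑_{j ∈ F} |x j|`. (The families `Sch n` and
the sequences are indexed by `ℕ = {0, 1, …}`, the index `j` standing for the positive integer `j + 1`.) -/
def IsSchreierSpace (n : ℕ) {X : Type} [NormedAddCommGroup X] [NormedSpace ℝ X]
    (ι : (ℕ →₀ ℝ) →ₗ[ℝ] X) : Prop :=
  CompleteSpace X ∧ DenseRange ι ∧ ∀ x, ‖ι x‖ = schNorm n x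

theorem mon : ∀ k F, F ∈ Sch k → F ∈ Sch (k + 1) := by
  intro k F hF
  have h := Pool.Agent.X224.SS.t_UNI k 1 (fun _ => F) (fun _ => hF)
    (fun i j hij => absurd hij (by omega)) (fun _ a _ => by omega)
  simpa using h

theorem result (n : ℕ) (hn : 2 ≤ n) :
    (∃ (X : Type) (_ : NormedAddCommGroup X) (_ : NormedSpace ℝ X) (ι : (ℕ →₀ ℝ) →ₗ[ℝ] X),
      IsSchreierSpace n ι) ∧
    ∀ (X : Type) [NormedAddCommGroup X] [NormedSpace ℝ X] (ι : (ℕ →₀ ℝ) →ₗ[ℝ] X),
      IsSchreierSpace n ι → ∃ T : X →L[ℝ] X, StrictlySingular T ∧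
        (∀ (A : ZeroAtInftyContinuousMap ℕ ℝ →L[ℝ] X) (B : X →L[ℝ] ZeroAtInftyContinuousMap ℕ ℝ),
          1 ≤ ‖T - A.comp B‖) ∧
        T ∉ closure {S : X →L[ℝ] X | ∃ (A : ZeroAtInftyContinuousMap ℕ ℝ →L[ℝ] X)
          (B : X →L[ℝ] ZeroAtInftyContinuousMap ℕ ℝ), S = A.comp B} := by
  constructor
  · obtain ⟨X, h1, h2, h3, ι, h4, h5⟩ := Pool.Agent.X181.SS.t_EX n
    exact ⟨X, h1, h2, ι, h3, h4, h5⟩
  · intro X _ _ ι hι
    obtain ⟨hc, hd, hnorm⟩ := hι
    obtain ⟨k, rfl⟩ : ∃ k, n = k + 2 := ⟨n - 2, by omega⟩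
    have huni := Pool.Agent.X224.SS.t_UNI
    have hher := Pool.Agent.X153.SS.t_HER huni
    have hbd := Pool.Agent.X4.SS.t huni hher Pool.Agent.X86.SS.t_SPR Pool.Agent.X207.SSDEC.t_DEC
    have hstep := Pool.Agent.X10.SSB.t_STEP huni hher
    have hbase := Pool.Agent.X10.SSB.t_BASE huni hher
    have hkh := X122KH.t_KH Pool.Agent.X267.SS.t_KH1
    have hdist := dist_ge hd hnorm mon hbd huni hkh
    refine ⟨Pool.Agent.X184.SS.T ι, T_strictlySingular hd hnorm mon hbd hstep hbase,
      fun A B => hdist A B, fun hcl => ?_⟩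
    obtain ⟨S, ⟨A, B, rfl⟩, hS⟩ := Metric.mem_closure_iff.1 hcl 1 one_pos
    rw [dist_eq_norm] at hS
    exact absurd hS (not_lt.2 (hdist A B))

end Pool.Agent.Results.MP_3cdc4e_an.NotApproximable
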